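import Pool.Agent.H413.PT.Core
import Pool.Agent.H413.PT.Near

/-!
MP_1a953e_ag: semistable uniformization, in equal characteristic `p > 0` and in all dimensions, of
points of `X^ad` with arbitrary defect.

Let `κ` be a field of characteristic `p > 0` and let `O` be the coordinate ring of a smooth affine
curve over `κ` (in the theorem, `O` is any finitely generated `κ`-algebra without zero divisors). Let
`F` be the field of fractions of `O`, and let `k` be the completion of `F` at a closed point of the
curve, with the ring of integers `k°`; let `π ∈ O` be a uniformizer. Let `𝒳` be an integral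
projective flat `O`-scheme of any dimension with the function field `K`, and let `X` be the analytic
space of `𝒳 ⊗ k`. The completion of `𝒳` along its fibre over the closed point is a formal model of
`X`, and the blowings-up of `𝒳` in closed subschemes of this fibre induce admissible blowings-up. A
point of `X^ad` induces a pair `(Z, U)` of a point `Z` of the generic fibre of `𝒳` and a valuation
ring `U ⊇ O` of the residue field `κ(Z)` of `Z`, and the specialization of the point of `X^ad` is the
centre of `U`. Suppose that `𝒳` is regular at `Z`, which holds if `X` is rig-smooth.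

We call a valuation ring `U` of a finitely generated field `L` over `κ` almost Abhyankar if it has
rank one, if its residue field is separably generated over `κ` (no condition if `κ` is perfect), and
if it misses the equality in the inequality of Abhyankar by at most one: `tr.deg(L / κ)` is `r + s` or
`r + s + 1`, where `r` is the rational rank and `s` is the transcendence degree of the residue field;
in the second case the residue field has to be finitely generated over `κ`, and infinite if `r = 1`.
In the second case the value group is arbitrary, and the finite extensions of `L` over the subfields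
generated by transcendence bases can have an arbitrary defect. For a point of `X^ad` of rank one with
the support `Z = X` this means that the sum of the rational rank of the value group modulo the values
of `k` and of the transcendence degree of the residue field is `dim X` (these are the Abhyankar
points) or `dim X - 1`.

Let `U` be reachable, that is, let `U` belong to the smallest class of valuations which contains the
trivial, discrete, divergent and almost Abhyankar ones, the composites, and the towers without
defect. (So the rank of `U` is arbitrary, and all components can have defect.) Suppose that the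
leading form of `π` is not a `p`-th power in the graded ring of `U`, that is, `|π - z ^ p| < |π|` for
no `z`. This holds if `|π|` is not a `p`-th power in the value group. Then there are numbers `D`, `N₀`
such that, for every `N ≥ N₀` divisible by `D`, for `l = k(ϖ)`, `ϖ ^ N = π`, and for the preimages of
the point in the adic space of `X_l`, an admissible blowing-up of the model `𝒳 ⊗ O[ϖ]` is
semistable at the specialization of the preimage: its local ring is regular, and `ϖ` is a product of
distinct elements of a regular system of parameters. The number `D` is prime to `p` if `|π|` is not a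
`p`-th power modulo infinitesimals; then the extension `l / k` can be chosen separable and tamely
ramified, and the point is uniformizable.

The points without defect, the divergent points, and towers and composites of such points are
treated in results of the library, whose passage from log uniformization to semistable
uniformization (for points with arbitrary support, `Pool.Agent.H413.PT.core`, a copy of the proof in
the library file `WildPoints`) is used here. The log uniformization of the almost Abhyankar
valuations is due to helper893 (`Pool.Agent.H893.AB.lu_all_def`).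
-/

set_option autoImplicit false

universe u

namespace Pool.Agent.Results.MP_1a953e_ag.AlmostAbhyankarPoints

open IsLocalRing Pool.Agent.W418.LU2 Pool.Agent.TH188.QS
open scoped NNReal

/-- The local ring of `Spec B` at the centre of the valuation ring `V`: the fractions of elements
of `B` whose denominators are units of `V`. -/
def centreRing {F : Type u} [Field F] (V : ValuationSubring F) (B : Subring F) : Subring F where
  carrier := {x | ∃ a ∈ B, ∃ b ∈ B, b ≠ 0 ∧ b⁻¹ ∈ V ∧ x = a * b⁻¹}
  mul_mem' := (lo V.toSubring B).mul_mem'
  one_mem' := (lo V.toSubring B).one_mem'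
  add_mem' := (lo V.toSubring B).add_mem'
  zero_mem' := (lo V.toSubring B).zero_mem'
  neg_mem' := (lo V.toSubring B).neg_mem'

/-- The subring `P` of the field `K` is a regular local ring, and `ϖ` is the product of some (at
least one) of the elements of a regular system of parameters. (If `ϖ` is a uniformizer of a discrete
valuation ring `O` with perfect residue field and `P` is the local ring of an integral flat
`O`-scheme of finite type at a point of the special fibre, then these elements `t i` define a
morphism from a neighbourhood of this point to `Spec O[t 0, ..., t d] / (t 0 * ... * t d - ϖ)` which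
is flat with regular, hence smooth, fibre through this point; so it is smooth there.) -/
def IsSemistable {K : Type u} [Field K] (P : Subring K) (ϖ : K) : Prop :=
  ∃ (_ : IsRegularLocalRing P) (n : ℕ) (x : Fin n → P) (S : Finset (Fin n)),
    Ideal.span (Set.range x) = IsLocalRing.maximalIdeal P ∧ ringKrullDim P = n ∧
      S.Nonempty ∧ ϖ = ∏ i ∈ S, (x i : K)

/-- The coordinate ring `O[v / w : v ∈ W]` of the chart `w ≠ 0` of the projective `O`-scheme
`Proj O[W]` with the function field `K` and the homogeneous coordinates `W ⊆ K`. -/
def chart {K : Type u} [Field K] (O : Subring K) (W : Set K) (w : K) : Subring K :=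
  Subring.closure ((O : Set K) ∪ {z | ∃ v ∈ W, z = v / w})

/-- `Y` is a finite set of forms of some degree `d` over `O` in the homogeneous coordinates `W`,
and `p ^ n` times any form of degree `d` is a linear combination of the forms in `Y`, for some `n`.
So the closed subscheme of `Proj O[W]` defined by the forms in `Y` is contained in the
fibre over `p`. -/
def IsVerticalCentre {K : Type u} [Field K] (O : Subring K) (p : K) (W Y : Set K) : Prop :=
  Y.Finite ∧ ∃ d n : ℕ, Y ⊆ ((Submodule.span O W) ^ d : Submodule O K) ∧
    ∀ z ∈ (Submodule.span O W) ^ d, p ^ n * z ∈ Submodule.span O Y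

/-- The homogeneous coordinates of the blowing-up of `Proj O[W]` in the closed subscheme which is
defined by the forms in `Y`. -/
def blowUpCoordinates {K : Type u} [Field K] (W Y : Set K) : Set K :=
  {z | ∃ y ∈ Y, ∃ v ∈ W, z = y * v}

/-- The projective scheme `Proj O[W]` is semistable at the centre of `V`, which lies in the chart
`w ≠ 0`. -/
def IsSemistableAt {K : Type u} [Field K] (V : ValuationSubring K) (O : Subring K) (W : Set K)
    (ϖ : K) : Prop :=
  ∃ w ∈ W, w ≠ 0 ∧ (∀ v ∈ W, v / w ∈ V) ∧ IsSemistable (centreRing V (chart O W w)) ϖ

/-- The ring `O[ϖ]`. (If `O` is a discrete valuation ring with the uniformizer `π = ϖ ^ N`, then it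
is the ring of integers of the totally ramified extension `k(ϖ)` of the field of fractions `k` of
`O`.) -/
def ramifiedRing {L K' : Type u} [Field L] [Field K'] (φ : L →+* K') (O : Subring L) (ϖ : K') :
    Subring K' :=
  Subring.closure ((O.map φ : Set K') ∪ {ϖ})

/-- `K' = K(ϖ)` with `ϖ ^ N = π`, and `V'` is a valuation ring of `K'` over the valuation ring `V`
of `K`. -/
def IsLift {K K' : Type u} [Field K] [Field K'] [Algebra K K'] (V : ValuationSubring K) (π : K)
    (N : ℕ) (V' : ValuationSubring K') (ϖ : K') : Prop :=
  V'.comap (algebraMap K K') = V ∧ ϖ ^ N = algebraMap K K' π ∧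
    ∀ z : K', z ∈ Subfield.closure (Set.range (algebraMap K K') ∪ {ϖ})

/-- The image of the `R`-algebra generated by `T`. -/
def adjoined {R K : Type u} [CommRing R] [Field K] (ρ : R →+* K) (T : Set K) : Subring K :=
  Subring.closure ((ρ.range : Set K) ∪ T)

/-- The quadratic transform of `Q` along `V`: the local ring, at the centre of `V`, of the
blowing-up of `Spec Q` in the centre of `V`. -/
def quadraticTransform {K : Type u} [Field K] (V : ValuationSubring K) (Q : Subring K) :
    Subring K :=
  centreRing V (Subring.closure ((Q : Set K) ∪ {t | ∃ y ∈ Q, ∃ z ∈ Q,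
    V.valuation y < 1 ∧ z ≠ 0 ∧ V.valuation z < 1 ∧
      (∀ w ∈ Q, V.valuation w < 1 → V.valuation w ≤ V.valuation z) ∧ t = y / z}))

/-- The sequence of quadratic transforms of the local ring of `Spec A` at the centre of `V`. -/
def quadraticSequence {K : Type u} [Field K] (V : ValuationSubring K) (A : Subring K) :
    ℕ → Subring K
  | 0 => centreRing V A
  | n + 1 => quadraticTransform V (quadraticSequence V A n)

/-- The values of the maximal ideals in the sequence of quadratic transforms have an infinite sum:
every value of `V` is exceeded by the value of all products `z 0 * ... * z (n - 1)` of elements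
`z i` of the maximal ideals of the rings of the sequence, for some `n`. -/
def IsDivergent {K : Type u} [Field K] (V : ValuationSubring K) (A : Subring K) : Prop :=
  ∀ x : K, x ≠ 0 → ∃ n : ℕ, ∀ z : ℕ → K,
    (∀ i < n, z i ∈ quadraticSequence V A i ∧ z i ≠ 0 ∧ V.valuation (z i) < 1) →
      V.valuation (∏ i ∈ Finset.range n, z i) < V.valuation x

/-- `V` is the composite of the valuation ring `V₁` and the valuation ring `W` of its residue
field. -/
def IsComposite {K : Type u} [Field K] (V V₁ : ValuationSubring K)
    (W : ValuationSubring (ResidueField V₁)) : Prop :=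
  ∀ z : K, z ∈ V ↔ ∃ hz : z ∈ V₁, residue V₁ ⟨z, hz⟩ ∈ W

section key

open Polynomial

variable {K : Type u} [Field K] (V : ValuationSubring K) {L : Subfield K} (θ : K)

/-- The monic polynomial `ϕ` over `L` of positive degree is a key polynomial for the valuation
`f ↦ |f(θ)|` of polynomials: if `f` and `g` are nonzero polynomials of smaller degree and
`f g = q ϕ + r` with `deg r < deg ϕ`, then `|q(θ) ϕ(θ)| < |f(θ) g(θ)|`. (So `|r(θ)| = |f(θ) g(θ)|`,
and the values of the polynomials of smaller degree define a valuation of `L[X] / (ϕ)`.) -/
def IsKey (ϕ : L[X]) : Prop :=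
  ϕ.Monic ∧ 0 < ϕ.natDegree ∧ ∀ f g : L[X], f.degree < ϕ.degree → g.degree < ϕ.degree →
    f ≠ 0 → g ≠ 0 → V.valuation (aeval θ (f * g /ₘ ϕ * ϕ)) < V.valuation (aeval θ (f * g))

/-- The polynomials of degree less than the degree of `ϕ` have an orthogonal basis over `L` with
respect to the valuation `f ↦ |f(θ)|`. (For a key polynomial `ϕ` this means that the valued field
`L[X] / (ϕ)` is an extension of `L` of degree `e f`. It holds if there are no limit key
polynomials of degree at most `deg ϕ`.) -/
def IsDefectless (ϕ : L[X]) : Prop :=
  ∃ (n : ℕ) (β : Fin n → L[X]), (∀ i, (β i).degree < ϕ.degree ∧ β i ≠ 0) ∧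
    (∀ f : L[X], f.degree < ϕ.degree → ∃ c : Fin n → L, f = ∑ i, C (c i) * β i) ∧
    ∀ (c : Fin n → L) (i : Fin n), V.valuation (aeval θ (C (c i) * β i)) ≤
      V.valuation (aeval θ (∑ j, C (c j) * β j))

/-- The value of `f(θ)` is determined by `ϕ`: in the `ϕ`-adic expansion `f = ∑ f_k ϕ ^ k` with
`deg f_k < deg ϕ` the value of no term at `θ` is greater than the value of `f(θ)`. -/
def IsDetermined (ϕ f : L[X]) : Prop :=
  ∃ (N : ℕ) (d : ℕ → L[X]), (∀ k, (d k).degree < ϕ.degree) ∧
    f = ∑ k ∈ Finset.range N, d k * ϕ ^ k ∧
    ∀ k < N, V.valuation (aeval θ (d k * ϕ ^ k)) ≤ V.valuation (aeval θ f)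

end key

open Polynomial in
/-- The extension `L ⊆ L'` of subfields of `K` is finite and has no defect with respect to the
valuation ring `V` of `K`. That is, for some valuation ring `W` over `V` of some extension field
`M` of `K`, some root `ζ ∈ M` of a monic polynomial `f` over `V ∩ L` with `|f'(ζ)| = 1`, and some
nonzero elements `β i` of `L'`, the field `L'(ζ)` is the sum of the lines `L(ζ) β i`, and the `β
i` are orthogonal over `L(ζ) = L[ζ]`. (The extension `L(ζ) / L` is unramified. If `L^h ⊆ L'^h ⊆
K^h` are the henselizations for `V` and `[L'^h : L^h] = e f`, then this holds with `M = K^h`,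
`L(ζ)` a large finite subextension of `L^h / L`, and with products of `e` elements of `L'` whose
values represent the cosets of the value group and `f` elements of `L'` whose residues form a
basis for the `β i`. For `M = K` and `L(ζ) = L` it is the condition `[L' : L] = e f`.) -/
def IsFiniteWithoutDefect {K : Type u} [Field K] (V : ValuationSubring K) (L L' : Subfield K) :
    Prop :=
  L ≤ L' ∧ ∃ (M : Type u) (_ : Field M) (_ : Algebra K M) (W : ValuationSubring M) (ζ : M)
    (f : L[X]) (n : ℕ) (β : Fin n → K), W.comap (algebraMap K M) = V ∧ f.Monic ∧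
    (∀ i, (f.coeff i : K) ∈ V) ∧ eval₂ ((algebraMap K M).comp L.subtype) ζ f = 0 ∧
    W.valuation (eval₂ ((algebraMap K M).comp L.subtype) ζ (derivative f)) = 1 ∧
    (∀ i, β i ∈ L' ∧ β i ≠ 0) ∧
    (∀ z ∈ L', ∃ c : Fin n → L[X], algebraMap K M z =
      ∑ i, eval₂ ((algebraMap K M).comp L.subtype) ζ (c i) * algebraMap K M (β i)) ∧
    ∀ (c : Fin n → L[X]) (i : Fin n),
      W.valuation (eval₂ ((algebraMap K M).comp L.subtype) ζ (c i) * algebraMap K M (β i)) ≤
        W.valuation (∑ j, eval₂ ((algebraMap K M).comp L.subtype) ζ (c j) * algebraMap K M (β j))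

open Polynomial in
/-- The subfields `L` of `K` which are reached from the field `E` by a tower of steps without
defect with respect to the valuation ring `V` of `K`. -/
inductive Tower (E : Type u) {K : Type u} [Field E] [Field K] [Algebra E K]
    (V : ValuationSubring K) : Subfield K → Prop
  /-- The tower starts with (the image of) `E`. -/
  | base : Tower E V (algebraMap E K).fieldRange
  /-- The step from `L` to `L(t)`, where `t` is transcendental and the value of every polynomial in
  `t` is determined by a defectless key polynomial. (This holds if the valuation of `L(t)` has no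
  limit key polynomials; for example, if `L` is algebraically closed, if `t` is a limit of a
  pseudo-convergent sequence of transcendental type, or if the value or the residue of a
  defectless key polynomial at `t` is transcendental over `L`.) -/
  | transcendental (L : Subfield K) (t : K) : Tower E V L → Transcendental L t →
    (∀ f : L[X], ∃ ϕ : L[X], IsKey V t ϕ ∧ IsDefectless V t ϕ ∧ IsDetermined V t ϕ f) →
    Tower E V (L ⊔ Subfield.closure {t})
  /-- The step from `L` to a finite extension `L'` without defect. -/
  | finite (L L' : Subfield K) : Tower E V L → IsFiniteWithoutDefect V L L' → Tower E V L'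

/-- Every element of the field `K` is a fraction of elements of `A`. -/
def HasFractionField {K : Type u} [Field K] (A : Subring K) : Prop :=
  ∀ z : K, ∃ a ∈ A, ∃ b ∈ A, b ≠ 0 ∧ z = a * b⁻¹

/-- The field `K` is finitely generated over `R`: it is the fraction field of an `R`-algebra of
finite type. -/
def IsFinitelyGenerated {R K : Type u} [CommRing R] [Field K] (ρ : R →+* K) : Prop :=
  ∃ T : Set K, T.Finite ∧ HasFractionField (adjoined ρ T)

/-- The value group of `v` has the rational rank `r`: there are `r` nonzero elements of `K` with
independent values, and every value has a power which is a product of powers of their values. -/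
def HasRationalRank {K : Type u} [Field K] (v : Valuation K ℝ≥0) (r : ℕ) : Prop :=
  ∃ x : Fin r → K, (∀ i, x i ≠ 0) ∧ (∀ m : Fin r → ℤ, ∏ i, v (x i) ^ m i = 1 → m = 0) ∧
    ∀ z : K, z ≠ 0 → ∃ n : ℕ, n ≠ 0 ∧ ∃ m : Fin r → ℤ, v z ^ n = ∏ i, v (x i) ^ m i

/-- The homomorphism from the ground field `κ` to the residue field of a valuation `v` of the
extension `ρ : κ → K` which is trivial on `κ`. -/
noncomputable def residueMap {κ K : Type u} [Field κ] [Field K] (ρ : κ →+* K)
    (v : Valuation K ℝ≥0) (hκ : ∀ c : κ, c ≠ 0 → v (ρ c) = 1) :
    κ →+* ResidueField v.valuationSubring :=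
  (residue v.valuationSubring).comp
    (ρ.codRestrict v.valuationSubring.toSubring
      (@Pool.Agent.H893.DD.kV_mem κ K _ _ ρ.toAlgebra v hκ))

/-- The residue field of `v` as an extension field of the ground field `κ`. -/
noncomputable abbrev residueAlgebra {κ K : Type u} [Field κ] [Field K] (ρ : κ →+* K)
    (v : Valuation K ℝ≥0) (hκ : ∀ c : κ, c ≠ 0 → v (ρ c) = 1) :
    Algebra κ (ResidueField v.valuationSubring) :=
  (residueMap ρ v hκ).toAlgebra

/-- The field extension `L / κ` has a finite separating transcendence basis. (If `κ` is perfect,
then every finitely generated extension has one.) -/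
def IsSeparablyGenerated (κ L : Type u) [Field κ] [Field L] [Algebra κ L] : Prop :=
  ∃ s : Finset L, IsTranscendenceBasis κ ((↑) : s → L) ∧
    Algebra.IsSeparable (IntermediateField.adjoin κ (s : Set L)) L

/-- The valuation ring `V` of the extension field `K` of `κ` is almost Abhyankar: `K` is finitely
generated over `κ`, and `V` is the valuation ring of a valuation `v` of rank one which is trivial on
`κ` and has the rational rank `r ≥ 1` and a separably generated residue field `κ(v)`, and
`tr.deg(K / κ) - tr.deg(κ(v) / κ) - r` is zero or one. If it is one, then `κ(v)` is finitely generated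
over `κ`, and infinite if `r = 1`. -/
def IsAlmostAbhyankar {κ K : Type u} [Field κ] [Field K] (ρ : κ →+* K) (V : ValuationSubring K) :
    Prop :=
  letI := ρ.toAlgebra
  Algebra.EssFiniteType κ K ∧
    ∃ (v : Valuation K ℝ≥0) (hκ : ∀ c : κ, c ≠ 0 → v (ρ c) = 1) (r : ℕ),
      V = v.valuationSubring ∧ 1 ≤ r ∧ HasRationalRank v r ∧
        (letI := residueAlgebra ρ v hκ
         IsSeparablyGenerated κ (ResidueField v.valuationSubring) ∧
          (Algebra.trdeg κ K =
              Algebra.trdeg κ (ResidueField v.valuationSubring) + (r : Cardinal) ∨
            (Algebra.trdeg κ K =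
                Algebra.trdeg κ (ResidueField v.valuationSubring) + ((r + 1 : ℕ) : Cardinal) ∧
              Algebra.EssFiniteType κ (ResidueField v.valuationSubring) ∧
              (r = 1 → Infinite (ResidueField v.valuationSubring)))))

/-- The class of valuations, of fields over the `κ`-algebra `R`, which are reached from the
discrete, divergent and almost Abhyankar ones by compositions and by towers without defect. -/
inductive Reachable (κ : Type u) [Field κ] (R : Type u) [CommRing R] [Algebra κ R] :
    ∀ {K : Type u} [Field K], (R →+* K) → ValuationSubring K → Prop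
  /-- The trivial valuations. -/
  | trivial {K : Type u} [Field K] (ρ : R →+* K) : Reachable κ R ρ (⊤ : ValuationSubring K)
  /-- The discrete valuations of rank one, and the valuations with divergent sequences of quadratic
  transforms of all `R`-algebras of finite type. -/
  | divergent {K : Type u} [Field K] (ρ : R →+* K) (V : ValuationSubring K) :
    (IsDiscreteValuationRing V ∨ ∀ T : Set K, T.Finite → adjoined ρ T ≤ V.toSubring →
      IsDivergent V (adjoined ρ T)) → Reachable κ R ρ V
  /-- The almost Abhyankar valuations. -/
  | almostAbhyankar {K : Type u} [Field K] (ρ : R →+* K) (V : ValuationSubring K) :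
    IsAlmostAbhyankar (ρ.comp (algebraMap κ R)) V → Reachable κ R ρ V
  /-- The composites of a valuation ring `V₁` and a valuation ring `W` of its residue field. -/
  | composite {K : Type u} [Field K] (ρ : R →+* K) (V V₁ : ValuationSubring K)
    (W : ValuationSubring (ResidueField V₁)) (hρ : ∀ a, ρ a ∈ V₁.toSubring) :
    IsComposite V V₁ W → Reachable κ R ρ V₁ →
    Reachable κ R ((residue V₁).comp (ρ.codRestrict V₁.toSubring hρ)) W → Reachable κ R ρ V
  /-- The valuations of a field `K` which is reached by a tower without defect from a finitely
  generated field `E` whose valuation is in the class. -/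
  | tower {E K : Type u} [Field E] [Field K] [Algebra E K] (ρ : R →+* E)
    (V : ValuationSubring K) : (∀ a, algebraMap E K (ρ a) ∈ V) → IsFinitelyGenerated ρ →
    Reachable κ R ρ (V.comap (algebraMap E K)) → Tower E V ⊤ →
    Reachable κ R ((algebraMap E K).comp ρ) V

lemma quadraticSequence_eq {K : Type u} [Field K] (V : ValuationSubring K) (A : Subring K) :
    quadraticSequence V A = qseq V A := by
  funext n
  induction n with
  | zero => rfl
  | succ n ih =>
    change quadraticTransform V (quadraticSequence V A n) = qt V.toSubring (qseq V A n)
    rw [ih, qt_val]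
    rfl

lemma IsDivergent.dv {K : Type u} [Field K] {V : ValuationSubring K} {A : Subring K}
    (h : IsDivergent V A) : Dv V (qseq V A) := by
  rw [← quadraticSequence_eq]
  exact dv_of_lt h

/-- The steps of a tower. -/
lemma Tower.inv {E K : Type u} [Field E] [Field K] [Algebra E K] {V : ValuationSubring K}
    {R' : Subring K} (h0 : Pool.Agent.H176.DT.Inv V R' (algebraMap E K).fieldRange.subtype)
    {L : Subfield K} (hL : Tower E V L) : Pool.Agent.H176.DT.Inv V R' L.subtype := by
  have kp : ∀ {L : Subfield K} {θ : K} {ϕ : Polynomial L}, IsKey V θ ϕ → IsDefectless V θ ϕ →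
      ∃ (n : ℕ) (β : Fin n → Polynomial L), Pool.Agent.H176.DT.KP V θ ϕ β := by
    rintro L θ ϕ ⟨h1, h2, h3⟩ ⟨n, β, h4, h5, h6⟩
    exact ⟨n, β, h1, h2, fun i => (h4 i).1, fun i => (h4 i).2, h5, h6, h3⟩
  induction hL with
  | base => exact h0
  | transcendental L t _ ht hdom ih =>
    refine Pool.Agent.H176.DT.sub_trans V _ t ht (fun f => ?_) ih
    obtain ⟨ϕ, h1, h2, N, d, h3, h4, h5⟩ := hdom f
    obtain ⟨n, β, h6⟩ := kp h1 h2
    exact ⟨ϕ, n, β, h6, N, d, ⟨h3, h4⟩, h5⟩
  | finite L L' _ hnd ih => exact Pool.Agent.H176.DT.sub_nd V _ hnd.1 hnd.2 ih

lemma Reachable.good {κ : Type u} [Field κ] (p : ℕ) [Fact p.Prime] [CharP κ p] {R : Type u}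
    [CommRing R] [Algebra κ R] [Algebra.FiniteType κ R] {K : Type u} [Field K]
    {ρ : R →+* K} {V : ValuationSubring K} (h : Reachable κ R ρ V) :
    Pool.Agent.R187.CT.Good ρ V := by
  have hR : HJ R := Pool.Agent.H413.PT.hj_finiteType κ
  induction h with
  | trivial ρ => exact Pool.Agent.R187.CT.good_top ρ
  | divergent ρ V h =>
    exact Pool.Agent.R187.CT.good_dv hR ρ V (h.imp_right fun h T hT hTV => (h T hT hTV).dv)
  | almostAbhyankar ρ V h =>
    obtain ⟨hE, v, hκ, r, rfl, hr, ⟨x, hx0, hind, hrr⟩, hsg, htr⟩ := h
    exact Pool.Agent.H413.PT.good_near (k := κ) p ρ hE v hκ hsg r hr htr x hx0 hind hrr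
  | composite ρ V V₁ W hρ hc _ _ ih₁ ihW =>
    exact Pool.Agent.R187.CT.good_comp hR ρ hρ hc ih₁ ihW
  | tower ρ V hρ hE _ ht ih =>
    exact Pool.Agent.R187.CT.good_tower hR ρ V hρ hE ih fun R' h0 => ht.inv h0

/-- The valuation ring `V` of `K` induces the point `(Z, U)`: `V₁ = V[1 / π]`, `Q` is the local ring
of the projective scheme `Proj O[W]` at the centre `Z` of `V₁`, which lies in the chart `w ≠ 0`, `U`
is the valuation ring which `V` induces on the residue field `κ(Z)` of `Q`, and `ρ` is the map from
`O` to `κ(Z)`. -/
structure Induces {K : Type u} [Field K] (V : ValuationSubring K) (O : Subring K) (π : O)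
    (W : Set K) (w : K) (V₁ : ValuationSubring K) (Q : Subring K) [IsLocalRing Q]
    (U : ValuationSubring (ResidueField Q)) (ρ : O →+* ResidueField Q) : Prop where
  mem_iff : ∀ z : K, z ∈ V₁ ↔ ∃ n : ℕ, (π : K) ^ n * z ∈ V
  eq : centreRing V₁ (chart O W w) = Q
  residue_mem_iff : ∀ z : Q, residue Q z ∈ U ↔ (z : K) ∈ V
  map_eq : ∀ (a : O) (h : (a : K) ∈ Q), ρ a = residue Q ⟨a, h⟩

/-- There are `K' = K(ϖ)`, `ϖ ^ N = π`, and valuation rings `V'` of `K'` over `V`, and for all such
`K'` and `V'` there is a closed subscheme of the fibre of `Proj O[W] ⊗ O[ϖ]` over `ϖ = 0` such that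
the blowing-up in this subscheme (the component with the function field `K'`) is semistable at the
centre of `V'`. -/
def HasSemistableBlowUps {K : Type u} [Field K] (V : ValuationSubring K) (O : Subring K) (π : K)
    (W : Set K) (N : ℕ) : Prop :=
  (∃ (K' : Type u) (_ : Field K') (_ : Algebra K K') (V' : ValuationSubring K') (ϖ : K'),
    IsLift V π N V' ϖ) ∧
  ∀ (K' : Type u) [Field K'] [Algebra K K'] (V' : ValuationSubring K') (ϖ : K'),
    IsLift V π N V' ϖ → ∃ Y : Set K',
      IsVerticalCentre (ramifiedRing (algebraMap K K') O ϖ) ϖ (algebraMap K K' '' W) Y ∧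
      IsSemistableAt V' (ramifiedRing (algebraMap K K') O ϖ)
        (blowUpCoordinates (algebraMap K K' '' W) Y) ϖ

/-- Let `κ` be a field of characteristic `p > 0`, let `K` be a field and let `O ⊆ K` be a finitely
generated `κ`-algebra (for example, the coordinate ring of a smooth affine curve over `κ`), let `π`
be a nonzero element of `O`, and let `V ⊇ O` be a valuation ring of `K` with `|π| < 1`. Let `𝒳` be an
integral projective `O`-scheme with function field `K` and with the homogeneous coordinates `W`; let
the chart `w ≠ 0` contain the centre of `V`. Let `V₁ = V[1 / π]`, and let `Z` be the centre of `V₁`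
on `𝒳` (on the part `X` where `π` is invertible). Suppose that `X` is regular at (the generic point
of) `Z`. Let `U` be the valuation ring of the residue field `κ(Z)` which is induced by `V`; so
`(Z, U)` is a point of `X^ad`. Suppose that `U` is in the class `Reachable`, which is generated by the
trivial, discrete, divergent and almost Abhyankar valuations under composites and towers without
defect, and suppose that the leading form of `π` is not a `p`-th power: `|π| ≤ |π - z ^ p|` for all
`z` in `κ(Z)`.

Then there are `D > 0`, `N₀` and `ζ ≠ 0` in `κ(Z)` such that `π / ζ ^ D` is infinitesimal (the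
absolute values of its powers are not smaller than `|π|`), `D` is prime to `p` if `π / z ^ p` is
infinitesimal for no `z`, and for all `N ≥ N₀` divisible by `D` there are `K' = K(ϖ)`, `ϖ ^ N = π`,
and valuation rings `V'` of `K'` over `V`, and for all such `K'` and `V'` there is a closed subscheme
of the fibre of `𝒳 ⊗ O[ϖ]` over `ϖ = 0` such that the blowing-up in this subscheme (the component
with the function field `K'`) is semistable at the centre of `V'`. -/
theorem result {κ : Type u} [Field κ] (p : ℕ) [Fact p.Prime] [CharP κ p] {K : Type u} [Field K]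
    (V : ValuationSubring K) (O : Subring K) [Algebra κ O] [Algebra.FiniteType κ O]
    (hOV : ∀ a ∈ O, a ∈ V) (π : O) (hπ0 : π ≠ 0) (hπ1 : V.valuation (π : K) < 1)
    (W : Set K) (hW : W.Finite) (w : K) (hw : w ∈ W) (hw0 : w ≠ 0)
    (hwV : ∀ z ∈ W, z / w ∈ V) (hWK : HasFractionField (chart O W w))
    (V₁ : ValuationSubring K) (Q : Subring K) [IsRegularLocalRing Q]
    (U : ValuationSubring (ResidueField Q)) (ρ : O →+* ResidueField Q)
    (hVU : Induces V O π W w V₁ Q U ρ) (hU : Reachable κ O ρ U)
    (hlead : ∀ z, U.valuation (ρ π) ≤ U.valuation (ρ π - z ^ p)) :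
    ∃ (D N₀ : ℕ) (ζ : ResidueField Q), 0 < D ∧ ζ ≠ 0 ∧
      (∀ n : ℤ, U.valuation (ρ π) ≤ U.valuation ((ρ π / ζ ^ D) ^ n)) ∧
      ((∀ z, z ≠ 0 → ∃ n : ℤ, U.valuation ((ρ π / z ^ p) ^ n) < U.valuation (ρ π)) →
        p.Coprime D) ∧
      ∀ N : ℕ, N₀ ≤ N → D ∣ N → HasSemistableBlowUps V O π W N := by
  have hp : ((p : ℕ) : ResidueField Q) = 0 := by
    have h1 : ((p : ℕ) : O) = 0 := by
      rw [← map_natCast (algebraMap κ O) p, CharP.cast_eq_zero, map_zero]
    rw [← map_natCast ρ p, h1, map_zero]
  obtain ⟨D, N₀, ζ, hD, hζ, h1, h2⟩ := Pool.Agent.H413.PT.core V V₁ O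
    (Pool.Agent.H413.PT.hj_finiteType κ) hOV (π : K) π.2
    (fun h => hπ0 (Subtype.ext h)) hπ1 hVU.mem_iff W hW w hw hw0 hwV hWK Q hVU.eq U
    hVU.residue_mem_iff ρ hVU.map_eq (hU.good p) (by
      intro q hq hq1 z
      have h3 : q = p := by
        by_contra hne
        have h4 : q.Coprime p := (Nat.coprime_primes hq Fact.out).2 hne
        have h5 : CharP (ResidueField Q) p := by
          have := (ρ.comp (algebraMap κ O))
          exact charP_of_injective_ringHom (ρ.comp (algebraMap κ O)).injective p
        have h6 : IsUnit ((q : ℕ) : ZMod p) := (ZMod.isUnit_iff_coprime q p).2 h4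
        have h7 : ((q : ℕ) : ResidueField Q) ≠ 0 := by
          intro h
          exact (Nat.Prime.coprime_iff_not_dvd Fact.out).1 h4.symm
            ((CharP.cast_eq_zero_iff (ResidueField Q) p q).1 h)
        obtain ⟨m, hm⟩ : ∃ m : ℤ, (q : ResidueField Q) * (m : ResidueField Q) = 1 := by
          obtain ⟨a, b, hab⟩ := Nat.isCoprime_iff_coprime.2 h4
          refine ⟨a, ?_⟩
          have h8 := congrArg (Int.cast : ℤ → ResidueField Q) hab
          push_cast at h8
          rw [hp, mul_zero, add_zero] at h8
          rw [mul_comm]
          exact h8
        have h8 : U.valuation (m : ResidueField Q) ≤ 1 := U.valuation_le_one_iff _ |>.2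
          (intCast_mem U m)
        have h9 := congrArg U.valuation hm
        rw [map_mul, map_one] at h9
        exact absurd h9 (mul_lt_one_of_lt_of_le hq1 h8).ne
      subst h3
      exact hlead z)
  refine ⟨D, N₀, ζ, hD, hζ, h1, ?_, fun N hN hd => ⟨(h2 N hN hd).1, ?_⟩⟩
  · intro h
    refine (Nat.Prime.coprime_iff_not_dvd Fact.out).2 ?_
    rintro ⟨m, rfl⟩
    obtain ⟨n, hn⟩ := h (ζ ^ m) (pow_ne_zero _ hζ)
    have h3 := h1 n
    rw [mul_comm p m, pow_mul] at h3
    exact absurd h3 (not_le.2 hn)
  · intro K' _ _ V' ϖ h
    exact (h2 N hN hd).2 V' ϖ h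

end Pool.Agent.Results.MP_1a953e_ag.AlmostAbhyankarPoints
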